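import Pool.Agent.H60.Sz.EmbD
import Pool.Agent.H60.Sy.Ndo

set_option autoImplicit false
set_option linter.unusedSectionVars false

open scoped ContDiff Topology
open Set Metric

namespace Pool.Agent.H60.Sz

open Pool.Agent.H60.Sy

private theorem invf_local {E : Type} [NormedAddCommGroup E] [NormedSpace ℝ E] [CompleteSpace E]
    {U : Set E} (hU : IsOpen U) {φ : E → E} (hφ : ContDiffOn ℝ ∞ φ U) {x : E} (hx : x ∈ U)
    (e : E ≃L[ℝ] E) (he : (e : E →L[ℝ] E) = fderiv ℝ φ x) :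
    φ '' U ∈ 𝓝 (φ x) ∧ ∃ g : E → E, ContDiffAt ℝ ∞ g (φ x) ∧
      (∀ᶠ z in 𝓝 (φ x), g z ∈ U ∧ φ (g z) = z) := by
  have hc : ContDiffAt ℝ ∞ φ x := hφ.contDiffAt (hU.mem_nhds hx)
  have hd : HasFDerivAt φ (e : E →L[ℝ] E) x := by
    rw [he]
    exact (hc.differentiableAt (by simp)).hasFDerivAt
  have hn : (∞ : WithTop ℕ∞) ≠ 0 := by simp
  have hst : HasStrictFDerivAt φ (e : E →L[ℝ] E) x := hc.hasStrictFDerivAt' hd hn
  refine ⟨?_, hc.localInverse hd hn, hc.to_localInverse hd hn, ?_⟩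
  · rw [← hst.map_nhds_eq_of_equiv]
    exact Filter.image_mem_map (hU.mem_nhds hx)
  · have h1 : ∀ᶠ z in 𝓝 (φ x), φ (hc.localInverse hd hn z) = z := hst.eventually_right_inverse
    have h2 : Filter.Tendsto (hc.localInverse hd hn) (𝓝 (φ x)) (𝓝 x) := hst.localInverse_tendsto
    filter_upwards [h1, h2.eventually (hU.mem_nhds hx)] with z hz1 hz2
    exact ⟨hz2, hz1⟩

theorem embData_of {n : ℕ} {κ : EE n → B2 (EE n)} (hκ : ∀ x, Nondeg (κ x)) {S : Set (EE n)}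
    {U : Set (EE n)} (hU : IsOpen U) (hSU : S ⊆ U) {φ : EE n → EE n}
    (hφ : ContDiffOn ℝ ∞ φ U) (hinj : InjOn φ U)
    (hs : ∀ x ∈ U, ∀ v w, om0 n (fderiv ℝ φ x v) (fderiv ℝ φ x w) = κ x v w) :
    Nonempty (EmbData n κ S) := by
  classical
  have hloc : ∀ x ∈ U, φ '' U ∈ 𝓝 (φ x) ∧ ∃ g : EE n → EE n, ContDiffAt ℝ ∞ g (φ x) ∧
      (∀ᶠ z in 𝓝 (φ x), g z ∈ U ∧ φ (g z) = z) := by
    intro x hx
    have hker : Function.Injective (fderiv ℝ φ x) := by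
      rw [injective_iff_map_eq_zero]
      intro v hv
      apply hκ x v
      intro w
      rw [← hs x hx, hv, map_zero]
      rfl
    obtain ⟨e, he⟩ : ∃ e : EE n ≃L[ℝ] EE n, (e : EE n →L[ℝ] EE n) = fderiv ℝ φ x := by
      refine ⟨(LinearEquiv.ofInjectiveEndo (fderiv ℝ φ x : EE n →ₗ[ℝ] EE n)
        hker).toContinuousLinearEquiv, ?_⟩
      refine ContinuousLinearMap.ext fun v => ?_
      rfl
    exact invf_local hU hφ hx e he
  have hl : ∀ x ∈ U, Function.invFunOn φ U (φ x) = x := fun x hx =>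
    hinj.leftInvOn_invFunOn hx
  have hmem : ∀ y ∈ φ '' U, Function.invFunOn φ U y ∈ U := by
    rintro y ⟨x, hx, rfl⟩
    rw [hl x hx]
    exact hx
  have hrr : ∀ y ∈ φ '' U, φ (Function.invFunOn φ U y) = y := by
    rintro y ⟨x, hx, rfl⟩
    rw [hl x hx]
  refine ⟨⟨U, φ '' U, φ, Function.invFunOn φ U, hU, ?_, hSU, hφ, ?_, mapsTo_image φ U, hmem, hl,
    hrr, hs⟩⟩
  · rw [isOpen_iff_mem_nhds]
    rintro y ⟨x, hx, rfl⟩
    exact (hloc x hx).1
  · rintro y ⟨x, hx, rfl⟩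
    obtain ⟨hV, g, hg, hev⟩ := hloc x hx
    refine ContDiffAt.contDiffWithinAt (hg.congr_of_eventuallyEq ?_)
    filter_upwards [hev, hV] with z hz hzV
    exact hinj (hmem z hzV) hz.1 ((hrr z hzV).trans hz.2.symm)

end Pool.Agent.H60.Sz
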