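import Pool.Agent.H60.Sz.Inv
import Pool.Agent.H60.Sz.Invf
import Pool.Agent.H60.Sy.Swin

set_option autoImplicit false
set_option linter.unusedSectionVars false

open scoped ContDiff Topology
open Set Metric

namespace Pool.Agent.H60.Sz

open Pool.Agent.H60.Sy

theorem main_b2 {n : ℕ} (hn : 2 ≤ n) {η : EE n → B2 (EE n)} {S : Set (EE n)}
    (D : EmbData n (fun x => om0 n + η x) S) (hS : IsCompact S)
    (hst : ∀ x ∈ S, ∀ t ∈ Icc (0:ℝ) 1, t • x ∈ S) (h0 : (0 : EE n) ∈ S) (hη : Fo η)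
    (hr : ∀ x ∉ S, η x = 0) (hnd : ∀ x, Nondeg (om0 n + η x)) :
    ∃ F : Dif (EE n), pb F (fun _ => om0 n) = fun x => om0 n + η x := by
  obtain ⟨η₂, ρ, c, R, hη₂, hnd₂, h2, h1, hc, hM⟩ := inv hn D hS hst h0 hη hr hnd
  obtain ⟨L₀, ρ₁, hρ₁, hP⟩ := pairs hn hη hη₂ hnd hnd₂ h1 h2 hc hM
  exact swindle hn h1 h2 hρ₁ hP

private theorem main_tr {E : Type} [NormedAddCommGroup E] [NormedSpace ℝ E] (c : E)
    (κ : E → B2 E) (x : E) : pb (fun x => x + c) κ x = κ (x + c) := by
  ext v w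
  rw [pb_apply, fderiv_add_const, fderiv_fun_id]
  rfl

/-- The main theorem: star-shaped core. -/
theorem main_star {n : ℕ} (hn : 2 ≤ n) {κ : EE n → B2 (EE n)} (hκ : Symp κ) {S : Set (EE n)}
    (hS : IsCompact S) {c : EE n} (hc : c ∈ S) (hstar : StarConvex ℝ c S)
    (hr : ∀ x ∉ S, κ x = om0 n) {U : Set (EE n)} (hU : IsOpen U)
    (hSU : S ⊆ U) {φ : EE n → EE n} (hφ : ContDiffOn ℝ ∞ φ U) (hinj : InjOn φ U)
    (hs : ∀ x ∈ U, ∀ v w, om0 n (fderiv ℝ φ x v) (fderiv ℝ φ x w) = κ x v w) :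
    ∃ F : Dif (EE n), pb F (fun _ => om0 n) = κ := by
  have hgs : ContDiff ℝ ∞ (fun x : EE n => x + c) := contDiff_id.add contDiff_const
  have hgi : ContDiff ℝ ∞ (fun x : EE n => x - c) := contDiff_id.sub contDiff_const
  obtain ⟨g, hg0⟩ : ∃ g : Dif (EE n), (fun x => g x) = fun x => x + c :=
    ⟨Dif.mk' (fun x => x + c) (fun x => x - c) hgs hgi
      (fun x => add_sub_cancel_right x c) (fun x => sub_add_cancel x c), rfl⟩
  have hg : ∀ κ' : EE n → B2 (EE n), pb g κ' = fun x => κ' (x + c) := by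
    intro κ'
    change pb (fun x => g x) κ' = _
    rw [hg0]
    exact funext fun x => main_tr c κ' x
  have hη : Fo (fun x => κ (x + c) - om0 n) := by
    have h1 : Fo (pb g κ) := fo_pb g.sm hκ.fo
    rw [hg] at h1
    exact h1.sub (fo_om0 n)
  have hr' : ∀ x ∉ (fun x => x + c) ⁻¹' S, κ (x + c) - om0 n = 0 := by
    intro x hx
    rw [hr (x + c) hx]
    refine ContinuousLinearMap.ext fun v => ContinuousLinearMap.ext fun w => ?_
    simp
  have he : ∀ x, om0 n + (κ (x + c) - om0 n) = κ (x + c) := by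
    intro x
    refine ContinuousLinearMap.ext fun v => ContinuousLinearMap.ext fun w => ?_
    simp
  have hnd : ∀ x, Nondeg (om0 n + (κ (x + c) - om0 n)) := by
    intro x
    rw [he]
    exact hκ.nondeg _
  have hS' : IsCompact ((fun x => x + c) ⁻¹' S) := by
    have e : (fun x => x + c) ⁻¹' S = (fun x => x - c) '' S := by
      ext x
      constructor
      · intro h
        exact ⟨x + c, h, add_sub_cancel_right x c⟩
      · rintro ⟨y, hy, rfl⟩
        change y - c + c ∈ S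
        rw [sub_add_cancel]; exact hy
    rw [e]
    exact hS.image hgi.continuous
  have hst : ∀ x ∈ (fun x => x + c) ⁻¹' S, ∀ t ∈ Icc (0:ℝ) 1, t • x ∈ (fun x => x + c) ⁻¹' S := by
    intro x hx t ht
    have h := hstar hx (a := 1 - t) (b := t) (by linarith [ht.2]) ht.1 (by ring)
    have e : (1 - t) • c + t • (x + c) = t • x + c := by
      rw [smul_add, sub_smul, one_smul]; abel
    rw [e] at h
    exact h
  have h0 : (0 : EE n) ∈ (fun x => x + c) ⁻¹' S := by
    change 0 + c ∈ S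
    rw [zero_add]; exact hc
  obtain ⟨D⟩ := embData_of (κ := fun x => om0 n + (κ (x + c) - om0 n)) hnd
    (S := (fun x => x + c) ⁻¹' S)
    (U := (fun x => x + c) ⁻¹' U) (hU.preimage hgs.continuous)
    (fun x hx => hSU hx) (φ := fun x => φ (x + c))
    (hφ.comp hgs.contDiffOn fun x hx => hx)
    (fun x hx y hy hxy => add_right_cancel (hinj hx hy hxy))
    (fun x hx v w => by
      rw [fderiv_comp_add_right, he]
      exact hs (x + c) hx v w)
  obtain ⟨F, hF⟩ := main_b2 hn D hS' hst h0 hη hr' hnd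
  refine ⟨g.symm.trans F, ?_⟩
  rw [pb_trans, hF]
  refine pb_symm g ?_
  rw [hg]
  funext x
  exact (he x).symm

end Pool.Agent.H60.Sz
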