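import Pool.Agent.H60.Sy.EmbL

/-!
Embedding data: a neighbourhood `U` of the set `S`, a diffeomorphism
`φ : U → V` with inverse `ψ`, pulling back the standard form to `κ`.
-/

set_option autoImplicit false
set_option linter.unusedSectionVars false

open scoped ContDiff Topology
open Set Metric

namespace Pool.Agent.H60.Sz

open Pool.Agent.H60.Sy

/-- Embedding data. -/
structure EmbData (n : ℕ) (κ : EE n → B2 (EE n)) (S : Set (EE n)) where
  /-- source -/
  U : Set (EE n)
  /-- target -/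
  V : Set (EE n)
  /-- the embedding -/
  φ : EE n → EE n
  /-- its inverse -/
  ψ : EE n → EE n
  hU : IsOpen U
  hV : IsOpen V
  hSU : S ⊆ U
  hφ : ContDiffOn ℝ ∞ φ U
  hψ : ContDiffOn ℝ ∞ ψ V
  mφ : MapsTo φ U V
  mψ : MapsTo ψ V U
  l : ∀ x ∈ U, ψ (φ x) = x
  rr : ∀ y ∈ V, φ (ψ y) = y
  symp : ∀ x ∈ U, ∀ v w, om0 n (fderiv ℝ φ x v) (fderiv ℝ φ x w) = κ x v w

/-- The target form with the image of the core replaced by a standard cube. -/
noncomputable def kap1 {n : ℕ} {κ : EE n → B2 (EE n)} {S : Set (EE n)} (D : EmbData n κ S)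
    (η : EE n → B2 (EE n)) (y : EE n) : B2 (EE n) := om0 n - nins D.V D.ψ η 1 y

end Pool.Agent.H60.Sz
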