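import Pool.Agent.H60.Sz.EmbL
import Pool.Agent.H60.Sy.PbC

/-!
[H60 SY EMBF] The nonlinear insertion is a smooth closed form and continuous in the scale.

Statements to prove (keep them): `fo_nins`, `continuousOn_nins`.

* `fo_nins`: the space is the union of the open sets `V` and `(φ '' S)ᶜ` (`isCompact_image`); on
  `V` the form is `s^2 • pb (fun y => s⁻¹ • ψ y) η` (the derivative of `s⁻¹ • ψ` is `s⁻¹ • fderiv ψ`;
  `contDiffOn_pb`, `closedAt_pb` for the map `fun y => s⁻¹ • ψ y`), on the other set it is `0`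
  (`nins_eq_zero`). Smoothness and closedness are local (`contDiff_iff_contDiffAt`,
  `ContDiffAt.congr_of_eventuallyEq`, `Filter.EventuallyEq.fderiv_eq`).
* `continuousOn_nins`: same covering; on `Ioc 0 1 ×ˢ V` it is a composition of continuous maps
  (`fderiv ℝ ψ` is continuous on `V`; `(A, B) ↦ A.bilinearComp B B` is continuous), and it is zero on
  `Ioc 0 1 ×ˢ (φ '' S)ᶜ`. (Alternatively use `ContinuousOn` pointwise in a basis.)
-/

set_option autoImplicit false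
set_option linter.unusedSectionVars false

open scoped ContDiff Topology
open Set Metric

namespace Pool.Agent.H60.Sz

open Pool.Agent.H60.Sy

variable {n : ℕ} {η : EE n → B2 (EE n)} {S : Set (EE n)} (D : EmbData n (fun x => om0 n + η x) S)

private theorem embf_cover (y : EE n) : y ∈ D.V ∨ y ∈ (D.φ '' S)ᶜ := by
  by_cases h : y ∈ D.φ '' S
  · left
    obtain ⟨x, hx, rfl⟩ := h
    exact D.mφ (D.hSU hx)
  · right; exact h

private theorem embf_open (hS : IsCompact S) : IsOpen (D.φ '' S)ᶜ :=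
  (isCompact_image D hS).isClosed.isOpen_compl

private theorem embf_zero (hS : IsCompact S) (hst : ∀ x ∈ S, ∀ t ∈ Icc (0:ℝ) 1, t • x ∈ S)
    (hr : ∀ x ∉ S, η x = 0) {s : ℝ}
    (hs : s ∈ Ioc (0:ℝ) 1) {y : EE n} (hy : y ∈ (D.φ '' S)ᶜ) :
    nins D.V D.ψ η s =ᶠ[𝓝 y] fun _ => 0 := by
  filter_upwards [(embf_open D hS).mem_nhds hy] with z hz
  exact nins_eq_zero D hst hr hs hz

private theorem embf_pb {s : ℝ} (hs : s ∈ Ioc (0:ℝ) 1) {y : EE n} (hy : y ∈ D.V) :
    nins D.V D.ψ η s y = s ^ 2 • pb (fun y => s⁻¹ • D.ψ y) η y := by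
  have h0 : s ≠ 0 := hs.1.ne'
  have hd : DifferentiableAt ℝ D.ψ y :=
    (D.hψ.contDiffAt (D.hV.mem_nhds hy)).differentiableAt (by simp)
  have hf : fderiv ℝ (fun y => s⁻¹ • D.ψ y) y = s⁻¹ • fderiv ℝ D.ψ y :=
    (hasFDerivAt_const_smul' hd.hasFDerivAt s⁻¹).fderiv
  rw [nins_mem hy]
  refine ContinuousLinearMap.ext fun v => ContinuousLinearMap.ext fun w => ?_
  simp only [ContinuousLinearMap.bilinearComp_apply, smul_apply, pb_apply, hf, map_smul, smul_eq_mul]
  field_simp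

private theorem embf_ev {s : ℝ} (hs : s ∈ Ioc (0:ℝ) 1) {y : EE n} (hy : y ∈ D.V) :
    nins D.V D.ψ η s =ᶠ[𝓝 y] fun z => s ^ 2 • pb (fun y => s⁻¹ • D.ψ y) η z := by
  filter_upwards [D.hV.mem_nhds hy] with z hz
  exact embf_pb D hs hz

private theorem embf_cd {s : ℝ} : ContDiffOn ℝ ∞ (fun y => s⁻¹ • D.ψ y) D.V :=
  (contDiffOn_const (c := s⁻¹)).smul D.hψ

private theorem embf_smul {F G : Type} [NormedAddCommGroup F] [NormedSpace ℝ F]
    [NormedAddCommGroup G] [NormedSpace ℝ G] {f : F → G} {x : F} (hf : ContDiffAt ℝ ∞ f x)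
    (c : ℝ) : ContDiffAt ℝ ∞ (fun x => c • f x) x :=
  contDiffAt_const.smul hf

theorem fo_nins (hS : IsCompact S)
    (hst : ∀ x ∈ S, ∀ t ∈ Icc (0:ℝ) 1, t • x ∈ S) (hη : Fo η) (hr : ∀ x ∉ S, η x = 0) {s : ℝ}
    (hs : s ∈ Ioc (0:ℝ) 1) : Fo (nins D.V D.ψ η s) where
  sm := by
    rw [contDiff_iff_contDiffAt]
    intro y
    rcases embf_cover D y with hy | hy
    · refine ContDiffAt.congr_of_eventuallyEq ?_ (embf_ev D hs hy)
      have h1 : ContDiffAt ℝ ∞ (pb (fun y => s⁻¹ • D.ψ y) η) y :=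
        (contDiffOn_pb D.hV (embf_cd D) hη.sm).contDiffAt (D.hV.mem_nhds hy)
      exact embf_smul h1 (s ^ 2)
    · exact ContDiffAt.congr_of_eventuallyEq contDiffAt_const (embf_zero D hS hst hr hs hy)
  closed := by
    intro y u v w
    rcases embf_cover D y with hy | hy
    · rw [(embf_ev D hs hy).fderiv_eq]
      have h1 : ContDiffAt ℝ ∞ (pb (fun y => s⁻¹ • D.ψ y) η) y :=
        (contDiffOn_pb D.hV (embf_cd D) hη.sm).contDiffAt (D.hV.mem_nhds hy)
      rw [(hasFDerivAt_const_smul' (h1.differentiableAt (by simp)).hasFDerivAt (s ^ 2)).fderiv]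
      have h2 := closedAt_pb D.hV (embf_cd D (s := s)) hη hy u v w
      simp only [smul_apply, smul_eq_mul]
      linear_combination s ^ 2 * h2
    · rw [(embf_zero D hS hst hr hs hy).fderiv_eq]
      simp
  alt := by
    intro y v w
    by_cases hy : y ∈ D.V
    · rw [nins_mem hy]
      simp only [ContinuousLinearMap.bilinearComp_apply]
      exact hη.alt _ _ _
    · rw [nins_notMem hy]
      simp

theorem continuousOn_nins (hS : IsCompact S)
    (hst : ∀ x ∈ S, ∀ t ∈ Icc (0:ℝ) 1, t • x ∈ S) (hη : Fo η) (hr : ∀ x ∉ S, η x = 0) :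
    ContinuousOn (fun q : ℝ × EE n => nins D.V D.ψ η q.1 q.2) (Ioc (0:ℝ) 1 ×ˢ univ) := by
  rintro ⟨s, y⟩ ⟨hs, -⟩
  rcases embf_cover D y with hy | hy
  · have hs0 : s ≠ 0 := hs.1.ne'
    have hψ : ContinuousAt D.ψ y := (D.hψ.contDiffAt (D.hV.mem_nhds hy)).continuousAt
    have hdψ : ContinuousAt (fderiv ℝ D.ψ) y :=
      ((D.hψ.fderiv_of_isOpen D.hV (m := ∞) (by simp)).contDiffAt (D.hV.mem_nhds hy)).continuousAt
    have h1 : ContinuousAt (fun q : ℝ × EE n => q.1⁻¹ • D.ψ q.2) (s, y) :=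
      (ContinuousAt.inv₀ continuousAt_fst hs0).smul (hψ.comp continuousAt_snd)
    have h2 : ContinuousAt (fun q : ℝ × EE n => η (q.1⁻¹ • D.ψ q.2)) (s, y) :=
      hη.sm.continuous.continuousAt.comp h1
    have h3 : ContinuousAt (fun q : ℝ × EE n => fderiv ℝ D.ψ q.2) (s, y) :=
      hdψ.comp continuousAt_snd
    have h4 : ContinuousAt (fun q : ℝ × EE n =>
        flipL (EE n) ((flipL (EE n) ((η (q.1⁻¹ • D.ψ q.2)).comp (fderiv ℝ D.ψ q.2))).comp
          (fderiv ℝ D.ψ q.2))) (s, y) := by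
      have h5 := h2.clm_comp h3
      have h6 : ContinuousAt (fun q : ℝ × EE n =>
          flipL (EE n) ((η (q.1⁻¹ • D.ψ q.2)).comp (fderiv ℝ D.ψ q.2))) (s, y) :=
        (flipL (EE n)).continuous.continuousAt.comp h5
      have h7 := h6.clm_comp h3
      exact (flipL (EE n)).continuous.continuousAt.comp h7
    have h8 : (fun q : ℝ × EE n => nins D.V D.ψ η q.1 q.2) =ᶠ[𝓝 (s, y)] (fun q : ℝ × EE n =>
        flipL (EE n) ((flipL (EE n) ((η (q.1⁻¹ • D.ψ q.2)).comp (fderiv ℝ D.ψ q.2))).comp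
          (fderiv ℝ D.ψ q.2))) := by
      have h9 : ∀ᶠ q : ℝ × EE n in 𝓝 (s, y), q.2 ∈ D.V :=
        continuousAt_snd.eventually (D.hV.mem_nhds hy)
      filter_upwards [h9] with q hq
      rw [nins_mem hq]
      refine ContinuousLinearMap.ext fun v => ContinuousLinearMap.ext fun w => ?_
      rfl
    exact (h4.congr h8.symm).continuousWithinAt
  · have h1 : ∀ᶠ q : ℝ × EE n in 𝓝[Ioc (0:ℝ) 1 ×ˢ univ] (s, y), q.2 ∈ (D.φ '' S)ᶜ :=
      (continuousAt_snd.eventually ((embf_open D hS).mem_nhds hy)).filter_mono nhdsWithin_le_nhds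
    have h2 : (fun q : ℝ × EE n => nins D.V D.ψ η q.1 q.2) =ᶠ[𝓝[Ioc (0:ℝ) 1 ×ˢ univ] (s, y)]
        fun _ => 0 := by
      filter_upwards [h1, self_mem_nhdsWithin] with q hq hq2
      exact nins_eq_zero D hst hr hq2.1 hq
    refine ContinuousWithinAt.congr_of_eventuallyEq continuousWithinAt_const h2 ?_
    exact nins_eq_zero D hst hr hs hy

end Pool.Agent.H60.Sz
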