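import Pool.Agent.H60.Sz.EmbF

/-!
[H60 SY EMBK] The form `kap1` (image of the core replaced by a standard cube) and the forms with
the scaled core inserted are symplectic.

Statements to prove (keep them): `kap1_mem`, `kap1_sphere`, `symp_kap1`, `symp_kap1_nins`.

* `kap1_mem`: `kap1 = om0 - nins 1`; use `om0_psi` (`1⁻¹ • ψ y = ψ y`).
* `kap1_sphere`: `x` with `‖x‖ = r > 0` is a limit of points outside `S` (e.g. `(1+ε) • x`), so
  `η x = 0` by continuity, hence `nins 1 (φ x) = 0` (`ψ (φ x) = x`).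
* `symp_kap1`: `Fo.sub`; nondegenerate: on `V` it is the pull-back of `om0` by the injective
  `fderiv ψ y` (`nondeg_bilinearComp`, `inj_fderiv_psi`), off `V` it is `om0`.
* `symp_kap1_nins`: `Fo.add`; on `V` the form is `om0 (Dψ ·) (Dψ ·) + η (s⁻¹ • ψ y) (Dψ ·) (Dψ ·)`, the
  pull-back of the nondegenerate form `om0 + η (s⁻¹ • ψ y)`; off `V` it is `om0`.
-/

set_option autoImplicit false
set_option linter.unusedSectionVars false

open scoped ContDiff Topology
open Set Metric

namespace Pool.Agent.H60.Sz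

open Pool.Agent.H60.Sy

variable {n : ℕ} {η : EE n → B2 (EE n)} {S : Set (EE n)} (D : EmbData n (fun x => om0 n + η x) S)

/-- on `V` the form `kap1` is the push-forward of the standard form -/
theorem kap1_mem {y : EE n} (hy : y ∈ D.V) (v w : EE n) :
    kap1 D η y v w = om0 n (fderiv ℝ D.ψ y v) (fderiv ℝ D.ψ y w) := by
  have h1 := om0_psi D hy v w
  have h2 : nins D.V D.ψ η 1 y v w = η (D.ψ y) (fderiv ℝ D.ψ y v) (fderiv ℝ D.ψ y w) := by
    rw [nins_mem hy, ContinuousLinearMap.bilinearComp_apply, inv_one, one_smul]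
  have h3 : kap1 D η y v w = om0 n v w - nins D.V D.ψ η 1 y v w := rfl
  rw [h3, h2]
  linarith

theorem kap1_eq_om0 (hst : ∀ x ∈ S, ∀ t ∈ Icc (0:ℝ) 1, t • x ∈ S) (hr : ∀ x ∉ S, η x = 0)
    {y : EE n} (hy : y ∉ D.φ '' S) : kap1 D η y = om0 n := by
  unfold kap1
  rw [nins_eq_zero D hst hr ⟨one_pos, le_rfl⟩ hy]
  exact sub_zero (om0 n)

theorem symp_kap1 (hS : IsCompact S)
    (hst : ∀ x ∈ S, ∀ t ∈ Icc (0:ℝ) 1, t • x ∈ S) (hη : Fo η) (hr : ∀ x ∉ S, η x = 0) :
    Symp (kap1 D η) := by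
  have hfo : Fo (kap1 D η) := (fo_om0 n).sub (fo_nins D hS hst hη hr ⟨one_pos, le_rfl⟩)
  refine hfo.symp fun y => ?_
  by_cases hy : y ∈ D.V
  · have e : kap1 D η y = (om0 n).bilinearComp (fderiv ℝ D.ψ y) (fderiv ℝ D.ψ y) := by
      refine ContinuousLinearMap.ext fun v => ContinuousLinearMap.ext fun w => ?_
      rw [kap1_mem D hy, ContinuousLinearMap.bilinearComp_apply]
    rw [e]
    exact nondeg_bilinearComp (om0_nondeg n) (inj_fderiv_psi D hy)
  · have e : kap1 D η y = om0 n := by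
      unfold kap1
      rw [nins_notMem hy]
      exact sub_zero (om0 n)
    rw [e]
    exact om0_nondeg n

/-- at limits of points outside the image the form is standard -/
theorem kap1_closure (hS : IsCompact S) (hst : ∀ x ∈ S, ∀ t ∈ Icc (0:ℝ) 1, t • x ∈ S) (hη : Fo η)
    (hr : ∀ x ∉ S, η x = 0) {y : EE n} (hy : y ∈ closure (D.φ '' S)ᶜ) : kap1 D η y = om0 n := by
  have hcl : closure (D.φ '' S)ᶜ ⊆ {y | kap1 D η y = om0 n} :=
    closure_minimal (fun z hz => kap1_eq_om0 D hst hr hz)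
      (isClosed_eq (symp_kap1 D hS hst hη hr).sm.continuous continuous_const)
  exact hcl hy

/-- the target form with the scaled core inserted -/
theorem symp_kap1_nins (hS : IsCompact S)
    (hst : ∀ x ∈ S, ∀ t ∈ Icc (0:ℝ) 1, t • x ∈ S) (hη : Fo η) (hr : ∀ x ∉ S, η x = 0)
    (hnd : ∀ x, Nondeg (om0 n + η x)) {s : ℝ} (hs : s ∈ Ioc (0:ℝ) 1) :
    Symp (fun y => kap1 D η y + nins D.V D.ψ η s y) := by
  refine ((symp_kap1 D hS hst hη hr).fo.add (fo_nins D hS hst hη hr hs)).symp fun y => ?_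
  by_cases hy : y ∈ D.V
  · have e : kap1 D η y + nins D.V D.ψ η s y =
        (om0 n + η (s⁻¹ • D.ψ y)).bilinearComp (fderiv ℝ D.ψ y) (fderiv ℝ D.ψ y) := by
      refine ContinuousLinearMap.ext fun v => ContinuousLinearMap.ext fun w => ?_
      have h1 : (kap1 D η y + nins D.V D.ψ η s y) v w =
        kap1 D η y v w + nins D.V D.ψ η s y v w := rfl
      rw [h1, kap1_mem D hy, nins_mem hy, ContinuousLinearMap.bilinearComp_apply,
        ContinuousLinearMap.bilinearComp_apply]
      rfl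
    rw [e]
    exact nondeg_bilinearComp (hnd _) (inj_fderiv_psi D hy)
  · have e : kap1 D η y + nins D.V D.ψ η s y = om0 n := by
      unfold kap1
      rw [nins_notMem hy, nins_notMem hy]
      refine ContinuousLinearMap.ext fun v => ContinuousLinearMap.ext fun w => ?_
      have h1 : ((om0 n - 0 + 0 : B2 (EE n)) v) w = om0 n v w - 0 + 0 := rfl
      exact h1.trans (by ring)
    rw [e]
    exact om0_nondeg n

end Pool.Agent.H60.Sz
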