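import Pool.Agent.H60.Sz.EmbD
import Pool.Agent.H60.Sy.Ndo

/-!
[H60 SY EMBL] Elementary properties of embedding data and of the nonlinear insertion.

Here `κ x = om0 n + η x`.

Statements to prove (keep them): `fderiv_phi_psi`, `om0_psi`, `isCompact_image`, `nins_eq_zero`.

* `fderiv_phi_psi`: differentiate `φ (ψ y) = y` near `y ∈ V` (chain rule).
* `om0_psi`: from `symp` at `x = ψ y` with the vectors `Dψ v, Dψ w`:
  `κ (ψ y) (Dψ v) (Dψ w) = om0 (Dφ Dψ v) (Dφ Dψ w) = om0 v w`.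
* `isCompact_image`: continuous image of a compact set (`φ` is continuous on `U`).
* `nins_eq_zero`: for `0 < s ≤ 1` and `y ∉ φ '' S`: if `y ∈ V` and `s⁻¹ • ψ y ∈ S`
  then `‖ψ y‖ ≤ s r ≤ r` and `y = φ (ψ y)`, a contradiction; so `η (s⁻¹ • ψ y) = 0`.
-/

set_option autoImplicit false
set_option linter.unusedSectionVars false

open scoped ContDiff Topology
open Set Metric

namespace Pool.Agent.H60.Sz

open Pool.Agent.H60.Sy

variable {n : ℕ} {η : EE n → B2 (EE n)} {S : Set (EE n)} (D : EmbData n (fun x => om0 n + η x) S)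

theorem fderiv_phi_psi {y : EE n} (hy : y ∈ D.V) (v : EE n) :
    fderiv ℝ D.φ (D.ψ y) (fderiv ℝ D.ψ y v) = v := by
  have h1 : DifferentiableAt ℝ D.ψ y :=
    (D.hψ.contDiffAt (D.hV.mem_nhds hy)).differentiableAt (by simp)
  have h2 : DifferentiableAt ℝ D.φ (D.ψ y) :=
    (D.hφ.contDiffAt (D.hU.mem_nhds (D.mψ hy))).differentiableAt (by simp)
  have h3 : HasFDerivAt (D.φ ∘ D.ψ) ((fderiv ℝ D.φ (D.ψ y)).comp (fderiv ℝ D.ψ y)) y :=
    h2.hasFDerivAt.comp y h1.hasFDerivAt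
  have h4 : HasFDerivAt (D.φ ∘ D.ψ) (ContinuousLinearMap.id ℝ (EE n)) y := by
    refine (hasFDerivAt_id y).congr_of_eventuallyEq ?_
    filter_upwards [D.hV.mem_nhds hy] with z hz
    exact D.rr z hz
  have h5 := h3.unique h4
  have h6 := congrArg (fun L : EE n →L[ℝ] EE n => L v) h5
  exact h6

theorem inj_fderiv_psi {y : EE n} (hy : y ∈ D.V) : Function.Injective (fderiv ℝ D.ψ y) := by
  intro v w h
  have h1 := fderiv_phi_psi D hy v
  have h2 := fderiv_phi_psi D hy w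
  rw [h, h2] at h1
  exact h1.symm

theorem om0_psi {y : EE n} (hy : y ∈ D.V) (v w : EE n) :
    om0 n (fderiv ℝ D.ψ y v) (fderiv ℝ D.ψ y w)
      + η (D.ψ y) (fderiv ℝ D.ψ y v) (fderiv ℝ D.ψ y w) = om0 n v w := by
  have h := D.symp (D.ψ y) (D.mψ hy) (fderiv ℝ D.ψ y v) (fderiv ℝ D.ψ y w)
  rw [fderiv_phi_psi D hy, fderiv_phi_psi D hy] at h
  rw [h]
  rfl

theorem isCompact_image (hS : IsCompact S) : IsCompact (D.φ '' S) :=
  hS.image_of_continuousOn (D.hφ.continuousOn.mono D.hSU)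

theorem nins_eq_zero (hst : ∀ x ∈ S, ∀ t ∈ Icc (0:ℝ) 1, t • x ∈ S) (hr : ∀ x ∉ S, η x = 0) {s : ℝ}
    (hs : s ∈ Ioc (0:ℝ) 1) {y : EE n} (hy : y ∉ D.φ '' S) : nins D.V D.ψ η s y = 0 := by
  by_cases hV : y ∈ D.V
  · rw [nins_mem hV, hr]
    · refine ContinuousLinearMap.ext fun v => ContinuousLinearMap.ext fun w => ?_
      rfl
    · intro hc
      apply hy
      refine ⟨D.ψ y, ?_, D.rr y hV⟩
      have h := hst _ hc s ⟨hs.1.le, hs.2⟩
      rwa [smul_smul, mul_inv_cancel₀ hs.1.ne', one_smul] at h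
  · exact nins_notMem hV

end Pool.Agent.H60.Sz
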