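import Pool.Agent.H60.Sy.PbC
import Pool.Agent.H60.Sy.Ndo

set_option autoImplicit false
set_option linter.unusedSectionVars false

open scoped ContDiff Topology
open Set Metric

namespace Pool.Agent.H60.Sz

open Pool.Agent.H60.Sy

/-- the direction -/
noncomputable def inv0_e (n : ℕ) (i : Fin n) : EE n := (Pi.single i 1, 0)

theorem inv0_co (n : ℕ) (i : Fin n) : co1 n i (inv0_e n i) = 1 := by
  rw [co1_apply]
  exact Pi.single_eq_same i 1

theorem inv0_ne (n : ℕ) (i : Fin n) : inv0_e n i ≠ 0 := by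
  intro h
  have h1 := inv0_co n i
  rw [h, map_zero] at h1
  exact zero_ne_one h1

theorem inv0_le (n : ℕ) (i : Fin n) (v : EE n) : |co1 n i v| ≤ ‖v‖ := by
  rw [co1_apply]
  exact (norm_le_pi_norm v.1 i).trans (norm_fst_le v)

theorem mov_conj {E : Type} [NormedAddCommGroup E] [NormedSpace ℝ E] (g : Dif E) {S : Set E}
    {κ κ' : E → B2 E} (h : Mov S κ κ') : Mov (g ⁻¹' S) (pb g κ) (pb g κ') := by
  obtain ⟨f, h1, h2⟩ := h
  refine ⟨(g.trans f).trans g.symm, fun x hx => ?_, ?_⟩
  · rw [Dif.trans_apply, Dif.trans_apply, h1 _ hx, Dif.symm_apply_apply]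
  · rw [← pb_trans]
    have h3 : (((g.trans f).trans g.symm).trans g : E → E) = (g.trans f : E → E) := by
      funext x
      rw [Dif.trans_apply, Dif.trans_apply, Dif.apply_symm_apply]
    have h4 : pb (((g.trans f).trans g.symm).trans g) κ' = pb (g.trans f) κ' := by
      rw [h3]
    rw [h4, pb_trans, h2]

/-- the affine map `x ↦ q + A x` -/
noncomputable def invG {n : ℕ} (A : EE n ≃L[ℝ] EE n) (q : EE n) : Dif (EE n) :=
  Dif.mk' (fun x => q + A x) (fun y => A.symm (y - q))
    (contDiff_const.add A.contDiff)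
    (A.symm.contDiff.comp (contDiff_id.sub contDiff_const))
    (fun x => by simp) (fun x => by simp)

theorem invG_apply {n : ℕ} (A : EE n ≃L[ℝ] EE n) (q x : EE n) : invG A q x = q + A x := rfl

theorem invG_fderiv {n : ℕ} (A : EE n ≃L[ℝ] EE n) (q x : EE n) :
    fderiv ℝ (invG A q) x = (A : EE n →L[ℝ] EE n) := by
  have h : HasFDerivAt (fun x => q + A x) (A : EE n →L[ℝ] EE n) x :=
    (A : EE n →L[ℝ] EE n).hasFDerivAt.const_add q
  exact h.fderiv

theorem invG_pb {n : ℕ} (A : EE n ≃L[ℝ] EE n) (q : EE n) (κ : EE n → B2 (EE n)) (x v w : EE n) :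
    pb (invG A q) κ x v w = κ (q + A x) (A v) (A w) := by
  rw [pb_apply, invG_fderiv]
  rfl

theorem inv_bdd {n : ℕ} (g : Dif (EE n)) {K : Set (EE n)} (hK : IsCompact K) :
    ∃ R : ℝ, ∀ x, g x ∈ K → x ∈ closedBall (0 : EE n) R := by
  have h1 : IsCompact (g.symm '' K) := hK.image g.symm.continuous
  obtain ⟨R, hR⟩ := h1.isBounded.subset_closedBall 0
  refine ⟨R, fun x hx => hR ⟨g x, hx, g.symm_apply_apply x⟩⟩

theorem shrk_add {X G : Type} [TopologicalSpace X] [NormedAddCommGroup G] [NormedSpace ℝ G]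
    {f g : X → G} {s : Set X} (hf : ContinuousOn f s) (hg : ContinuousOn g s) :
    ContinuousOn (fun x => f x + g x) s := hf.add hg

theorem shrk_cancel {G : Type} [NormedAddCommGroup G] [NormedSpace ℝ G] (a b : G) :
    a - b + b = a := sub_add_cancel a b

end Pool.Agent.H60.Sz
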