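import Pool.Agent.H60.Sz.Inv0

set_option autoImplicit false
set_option linter.unusedSectionVars false

open scoped ContDiff Topology
open Set Metric

namespace Pool.Agent.H60.Sz

open Pool.Agent.H60.Sy

theorem inv {n : ℕ} (hn : 2 ≤ n) {η : EE n → B2 (EE n)} {S : Set (EE n)}
    (D : EmbData n (fun x => om0 n + η x) S) (hS : IsCompact S)
    (hst : ∀ x ∈ S, ∀ t ∈ Icc (0:ℝ) 1, t • x ∈ S) (h0 : (0 : EE n) ∈ S) (hη : Fo η)
    (hr : ∀ x ∉ S, η x = 0) (hnd : ∀ x, Nondeg (om0 n + η x)) :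
    ∃ (η₂ : EE n → B2 (EE n)) (ρ : ℝ) (c : EE n) (R : ℝ), Fo η₂ ∧
      (∀ x, Nondeg (om0 n + η₂ x)) ∧ (∀ x ∉ closedBall (0 : EE n) ρ, η₂ x = 0) ∧
      (∀ x ∉ closedBall (0 : EE n) ρ, η x = 0) ∧
      2 * ρ < ‖c‖ ∧
      Mov (closedBall 0 R) (fun _ => om0 n) (fun x => om0 n + η x + η₂ (x - c)) := by
  obtain ⟨y₀, e, B, he, hB, T₀, hT⟩ := inv0 hn D hS hst h0 hη hr hnd
  obtain ⟨r, hSr⟩ := hS.isBounded.subset_closedBall (0 : EE n)
  have hBi : Function.Injective B := by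
    apply injective_of_nondeg (A := om0 n)
    intro v hv
    apply om0_nondeg n
    intro w
    rw [← hB v w]
    exact hv w
  obtain ⟨Be, hBe⟩ : ∃ Be : EE n ≃L[ℝ] EE n, ∀ v, Be v = B v :=
    ⟨(LinearEquiv.ofInjectiveEndo (B : EE n →ₗ[ℝ] EE n) hBi).toContinuousLinearEquiv,
      fun v => rfl⟩
  have hA : ∀ v w, om0 n (Be.symm v) (Be.symm w) = om0 n v w := by
    intro v w
    rw [← hB, ← hBe, ← hBe, Be.apply_symm_apply, Be.apply_symm_apply]
  have hSy := symp_kap1 D hS hst hη hr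
  obtain ⟨η₂, hη₂⟩ : ∃ η₂ : EE n → B2 (EE n),
      η₂ = pb (invG Be.symm y₀) (fun y => kap1 D η y - om0 n) := ⟨_, rfl⟩
  have hη₂a : ∀ x v w, η₂ x v w =
      kap1 D η (y₀ + Be.symm x) (Be.symm v) (Be.symm w) - om0 n v w := by
    intro x v w
    rw [hη₂, invG_pb, ← hA v w]
    rfl
  obtain ⟨ρ', hρ'⟩ := inv_bdd (invG Be.symm y₀) (isCompact_image D hS)
  have hBe0 : 0 < ‖B e‖ := by
    rw [norm_pos_iff]
    intro h
    exact he (hBi (by rw [h, map_zero]))
  obtain ⟨ρ, hρ⟩ : ∃ ρ : ℝ, ρ = max ρ' r := ⟨_, rfl⟩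
  have hρr : r ≤ ρ := by
    rw [hρ]
    exact le_max_right _ _
  obtain ⟨T, hTdef⟩ : ∃ T : ℝ, T = max T₀ ((2 * ρ + 1) / ‖B e‖) := ⟨_, rfl⟩
  have hT1 : T₀ ≤ T := by
    rw [hTdef]
    exact le_max_left _ _
  have hT2 : (2 * ρ + 1) / ‖B e‖ ≤ T := by
    rw [hTdef]
    exact le_max_right _ _
  rw [div_le_iff₀ hBe0] at hT2
  obtain ⟨R', hR'⟩ := hT T hT1
  have hmov := mov_conj (invG Be.symm (y₀ + T • e)) hR'
  obtain ⟨R, hR⟩ := inv_bdd (invG Be.symm (y₀ + T • e)) (isCompact_closedBall (0 : EE n) R')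
  refine ⟨η₂, ρ, -(T • B e), R, ?_, ?_, ?_,
    fun x hx => hr x fun h => hx (closedBall_subset_closedBall hρr (hSr h)), ?_, ?_⟩
  · rw [hη₂]
    exact fo_pb (invG Be.symm y₀).sm (hSy.fo.sub (fo_om0 n))
  · intro x
    have h1 : om0 n + η₂ x = (kap1 D η (y₀ + Be.symm x)).bilinearComp
        (Be.symm : EE n →L[ℝ] EE n) (Be.symm : EE n →L[ℝ] EE n) := by
      refine ContinuousLinearMap.ext fun v => ContinuousLinearMap.ext fun w => ?_
      rw [ContinuousLinearMap.bilinearComp_apply]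
      change om0 n v w + η₂ x v w = kap1 D η (y₀ + Be.symm x) (Be.symm v) (Be.symm w)
      rw [hη₂a]
      ring
    rw [h1]
    exact nondeg_bilinearComp (hSy.nondeg _) Be.symm.injective
  · intro x hx
    have h1 : y₀ + Be.symm x ∉ D.φ '' S := by
      intro h
      apply hx
      rw [hρ]
      exact closedBall_subset_closedBall (le_max_left _ _) (hρ' x h)
    refine ContinuousLinearMap.ext fun v => ContinuousLinearMap.ext fun w => ?_
    rw [hη₂a, kap1_eq_om0 D hst hr h1, hA, sub_self]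
    rfl
  · rw [norm_neg, norm_smul, Real.norm_eq_abs]
    have h1 : T * ‖B e‖ ≤ |T| * ‖B e‖ := mul_le_mul_of_nonneg_right (le_abs_self T) hBe0.le
    linarith
  · have h1 : pb (invG Be.symm (y₀ + T • e)) (fun _ => om0 n) = fun _ => om0 n := by
      funext x
      refine ContinuousLinearMap.ext fun v => ContinuousLinearMap.ext fun w => ?_
      rw [invG_pb]
      exact hA v w
    have h2 : pb (invG Be.symm (y₀ + T • e))
        (fun y => kap1 D η y + lins η (y₀ + T • e) B 1 y) =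
        fun x => om0 n + η x + η₂ (x - -(T • B e)) := by
      funext x
      refine ContinuousLinearMap.ext fun v => ContinuousLinearMap.ext fun w => ?_
      rw [invG_pb]
      change kap1 D η (y₀ + T • e + Be.symm x) (Be.symm v) (Be.symm w) +
        lins η (y₀ + T • e) B 1 (y₀ + T • e + Be.symm x) (Be.symm v) (Be.symm w) =
        om0 n v w + η x v w + η₂ (x - -(T • B e)) v w
      rw [lins_apply, hη₂a, ← hBe, ← hBe, ← hBe, Be.apply_symm_apply, Be.apply_symm_apply,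
        add_sub_cancel_left, Be.apply_symm_apply, inv_one, one_smul, sub_neg_eq_add, map_add,
        map_smul, ← hBe, Be.symm_apply_apply]
      have h3 : y₀ + (Be.symm x + T • e) = y₀ + T • e + Be.symm x := by abel
      rw [h3]
      ring
    rw [h1, h2] at hmov
    exact hmov.mono fun x hx => hR x hx

end Pool.Agent.H60.Sz
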