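import Pool.Agent.H60.Sy.Path
import Pool.Agent.H60.Sz.EmbK
import Pool.Agent.H60.Sy.Lins

set_option autoImplicit false
set_option linter.unusedSectionVars false

open scoped ContDiff Topology
open Set Metric

namespace Pool.Agent.H60.Sz

open Pool.Agent.H60.Sy

/-- uniform continuity near a compact set -/
theorem unif_near {X Y : Type} [PseudoMetricSpace X] [PseudoMetricSpace Y] {K : Set X}
    (hK : IsCompact K) {f : X → Y} (hf : ∀ x ∈ K, ContinuousAt f x) {ε : ℝ} (hε : 0 < ε) :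
    ∃ δ > 0, ∀ x ∈ K, ∀ y, dist y x < δ → dist (f y) (f x) < ε := by
  have h := hK.uniformContinuousAt_of_continuousAt f hf (r := {p | dist p.1 p.2 < ε})
    (Metric.dist_mem_uniformity hε)
  rw [Metric.mem_uniformity_dist] at h
  obtain ⟨δ, hδ, h⟩ := h
  refine ⟨δ, hδ, fun x hx y hy => ?_⟩
  have h2 := h (a := x) (b := y) (by rwa [dist_comm]) hx
  rw [dist_comm]
  exact h2

/-- algebra of the three forms -/
theorem linz_dist {G : Type} [NormedAddCommGroup G] [NormedSpace ℝ G] {a b N Λ : G} {u ε : ℝ}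
    (h1 : dist a b < ε / 2) (h2 : dist N Λ < ε / 2) (hu : u ∈ Icc (0:ℝ) 1) :
    dist (a + N + u • (a + Λ - (a + N))) (b + Λ) < ε := by
  rw [dist_eq_norm] at h1 h2 ⊢
  have e : a + N + u • (a + Λ - (a + N)) - (b + Λ) = (a - b) + (1 - u) • (N - Λ) := by
    rw [sub_smul, one_smul, smul_sub, smul_sub, smul_add, smul_add]; abel
  rw [e]
  have h3 : ‖(1 - u) • (N - Λ)‖ ≤ ‖N - Λ‖ := by
    rw [norm_smul, Real.norm_eq_abs, abs_of_nonneg (by linarith [hu.2])]
    calc (1 - u) * ‖N - Λ‖ ≤ 1 * ‖N - Λ‖ :=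
          mul_le_mul_of_nonneg_right (by linarith [hu.1]) (norm_nonneg _)
      _ = ‖N - Λ‖ := one_mul _
  calc ‖(a - b) + (1 - u) • (N - Λ)‖ ≤ ‖a - b‖ + ‖(1 - u) • (N - Λ)‖ := norm_add_le _ _
    _ < ε := by linarith

theorem linz_cadd {X G : Type} [TopologicalSpace X] [NormedAddCommGroup G] [NormedSpace ℝ G]
    {f : X → G} (hf : Continuous f) (a : G) : Continuous (fun x => a + f x) :=
  continuous_const.add hf

theorem linz_zero {G : Type} [NormedAddCommGroup G] [NormedSpace ℝ G] (a : G) (u : ℝ) :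
    a + 0 + u • (a + 0 - (a + 0)) = a := by simp

theorem linz {n : ℕ} (hn : 2 ≤ n) {η : EE n → B2 (EE n)} {S : Set (EE n)}
    (D : EmbData n (fun x => om0 n + η x) S) (hS : IsCompact S)
    (hst : ∀ x ∈ S, ∀ t ∈ Icc (0:ℝ) 1, t • x ∈ S) (h0 : (0 : EE n) ∈ S) (hη : Fo η)
    (hr : ∀ x ∉ S, η x = 0) (hnd : ∀ x, Nondeg (om0 n + η x)) :
    ∃ s₁ : ℝ, 0 < s₁ ∧ s₁ ≤ 1 ∧ ∀ s, 0 < s → s ≤ s₁ → ∃ R : ℝ,
      Mov (closedBall 0 R) (fun y => kap1 D η y + nins D.V D.ψ η s y)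
        (fun y => kap1 D η y + lins η (D.φ 0) (fderiv ℝ D.ψ (D.φ 0)) s y) := by
  obtain ⟨q, hq⟩ : ∃ q, q = D.φ 0 := ⟨_, rfl⟩
  obtain ⟨B, hB⟩ : ∃ B, B = fderiv ℝ D.ψ (D.φ 0) := ⟨_, rfl⟩
  rw [← hB, ← hq]
  rw [← hq] at hB
  have h0U : (0 : EE n) ∈ D.U := D.hSU h0
  have hqV : q ∈ D.V := by rw [hq]; exact D.mφ h0U
  have hψq : D.ψ q = 0 := by rw [hq]; exact D.l 0 h0U
  have hκ₁ : Symp (kap1 D η) := symp_kap1 D hS hst hη hr
  have hBinj : Function.Injective B := by rw [hB]; exact inj_fderiv_psi D hqV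
  have hBq : ∀ v w, om0 n (B v) (B w) = kap1 D η q v w := by
    intro v w; rw [kap1_mem D hqV, ← hB]
  -- radius
  obtain ⟨r, hr0, hSr⟩ : ∃ r : ℝ, 0 < r ∧ S ⊆ closedBall (0 : EE n) r := by
    obtain ⟨r, hr⟩ := hS.isBounded.subset_closedBall 0
    exact ⟨max r 1, lt_of_lt_of_le one_pos (le_max_right _ _),
      hr.trans (closedBall_subset_closedBall (le_max_left _ _))⟩
  -- Lipschitz constants
  obtain ⟨C, hC0, hC⟩ := exists_inv_bound (A := om0 n) (k := fun _ => kap1 D η q)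
    (fun _ _ => hκ₁.nondeg q) (B := fun _ => B) continuousOn_const (fun _ _ => hBq)
  have hC' : ∀ v, ‖v‖ ≤ C * ‖B v‖ := hC 0 ⟨le_rfl, zero_le_one⟩
  have hφd : DifferentiableAt ℝ D.φ 0 :=
    (D.hφ.contDiffAt (D.hU.mem_nhds h0U)).differentiableAt (by simp)
  obtain ⟨K, hK⟩ := hφd.hasFDerivAt.isBigO_sub.bound
  rw [Metric.eventually_nhds_iff] at hK
  obtain ⟨δ₁, hδ₁, hK⟩ := hK
  obtain ⟨L, hL⟩ : ∃ L : ℝ, L = max |K| C * r := ⟨_, rfl⟩
  have hL0 : 0 < L := by rw [hL]; exact mul_pos (lt_of_lt_of_le hC0 (le_max_right _ _)) hr0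
  -- supports
  have hsuppN : ∀ s, s ∈ Ioc (0:ℝ) 1 → s * r < δ₁ → ∀ y, L * s < ‖y - q‖ →
      nins D.V D.ψ η s y = 0 := by
    intro s hs hsr y hy
    by_cases hyV : y ∈ D.V
    · rw [nins_mem hyV, hr]
      · refine ContinuousLinearMap.ext fun v => ContinuousLinearMap.ext fun w => ?_
        rfl
      · intro hc
        have h1 := mem_closedBall_zero_iff.1 (hSr hc)
        rw [norm_smul, norm_inv, Real.norm_of_nonneg hs.1.le, inv_mul_le_iff₀ hs.1] at h1
        have h2 := @hK (D.ψ y) (by rw [dist_zero_right]; exact lt_of_le_of_lt h1 hsr)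
        rw [D.rr y hyV, ← hq, sub_zero] at h2
        have h3 : K * ‖D.ψ y‖ ≤ L * s := by
          rw [hL]
          calc K * ‖D.ψ y‖ ≤ |K| * ‖D.ψ y‖ :=
                mul_le_mul_of_nonneg_right (le_abs_self K) (norm_nonneg _)
            _ ≤ max |K| C * (s * r) := by
                apply mul_le_mul (le_max_left _ _) h1 (norm_nonneg _)
                exact (abs_nonneg K).trans (le_max_left _ _)
            _ = max |K| C * r * s := by ring
        linarith
    · exact nins_notMem hyV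
  have hsuppL : ∀ s, s ∈ Ioc (0:ℝ) 1 → ∀ y, L * s < ‖y - q‖ → lins η q B s y = 0 := by
    intro s hs y hy
    refine lins_eq_zero (r := r) (fun x hx => hr x fun h => hx (hSr h)) ?_
    intro hc
    have h1 := mem_closedBall_zero_iff.1 hc
    rw [norm_smul, norm_inv, Real.norm_of_nonneg hs.1.le, inv_mul_le_iff₀ hs.1] at h1
    have h2 := hC' (y - q)
    have h3 : C * ‖B (y - q)‖ ≤ L * s := by
      rw [hL]
      calc C * ‖B (y - q)‖ ≤ max |K| C * (s * r) := by
            apply mul_le_mul (le_max_right _ _) h1 (norm_nonneg _)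
            exact (abs_nonneg K).trans (le_max_left _ _)
        _ = max |K| C * r * s := by ring
    linarith
  -- the compact set of limit forms
  obtain ⟨G, hG⟩ : ∃ G : EE n × (EE n →L[ℝ] EE n) → B2 (EE n),
      G = fun p => (η p.1).bilinearComp p.2 p.2 := ⟨_, rfl⟩
  have hGc : Continuous G := by
    rw [hG, ← continuousOn_univ]
    exact lins_bc_continuousOn (hη.sm.continuous.comp continuous_fst).continuousOn
      continuous_snd.continuousOn
  have hcpt1 : IsCompact ((fun z : EE n => (B z, B)) '' closedBall (0 : EE n) L) :=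
    (isCompact_closedBall 0 L).image (by fun_prop)
  have hcpt2 : IsCompact ((fun z : EE n => kap1 D η q + G (B z, B)) '' closedBall (0 : EE n) L) := by
    refine (isCompact_closedBall 0 L).image ?_
    have h1 : Continuous (fun z : EE n => G (B z, B)) := hGc.comp (by fun_prop)
    exact linz_cadd (G := EE n →L[ℝ] EE n →L[ℝ] ℝ) h1 (kap1 D η q)
  have hlim : ∀ z, kap1 D η q + G (B z, B) = (om0 n + η (B z)).bilinearComp B B := by
    intro z
    refine ContinuousLinearMap.ext fun v => ContinuousLinearMap.ext fun w => ?_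
    have h1 : (kap1 D η q + G (B z, B)) v w = kap1 D η q v w + G (B z, B) v w := rfl
    rw [h1, ← hBq, hG]
    rfl
  obtain ⟨ε, hε, hεn⟩ := exists_nondeg_of_compact hcpt2 (by
    rintro A ⟨z, -, rfl⟩
    change Nondeg (kap1 D η q + G (B z, B))
    rw [hlim]
    exact nondeg_bilinearComp (hnd _) hBinj)
  obtain ⟨δ₂, hδ₂, hG2⟩ := unif_near hcpt1 (f := G) (fun x _ => hGc.continuousAt) (half_pos hε)
  obtain ⟨δ₃, hδ₃, hκc⟩ := unif_near (isCompact_singleton (x := q)) (f := kap1 D η)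
    (fun x _ => hκ₁.sm.continuous.continuousAt) (half_pos hε)
  -- derivative of psi
  have hψd : HasFDerivAt D.ψ B q := by
    rw [hB]
    exact ((D.hψ.contDiffAt (D.hV.mem_nhds hqV)).differentiableAt (by simp)).hasFDerivAt
  have hψ' : ContinuousAt (fderiv ℝ D.ψ) q :=
    (D.hψ.continuousOn_fderiv_of_isOpen D.hV (by simp)).continuousAt (D.hV.mem_nhds hqV)
  obtain ⟨δ₄, hδ₄, hψ4⟩ := Metric.continuousAt_iff.1 hψ' δ₂ hδ₂
  have hlo := (hasFDerivAt_iff_isLittleO_nhds_zero.1 hψd)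
  rw [Asymptotics.isLittleO_iff] at hlo
  have hc5 : 0 < δ₂ / (2 * L) := by positivity
  have hlo2 := hlo hc5
  rw [Metric.eventually_nhds_iff] at hlo2
  obtain ⟨δ₅, hδ₅, hψ5⟩ := hlo2
  obtain ⟨δ₆, hδ₆, hV6⟩ := Metric.isOpen_iff.1 D.hV q hqV
  -- choice of s₁
  obtain ⟨s₁, hs₁0, hs₁1, ha, hb, hc, hd, he⟩ : ∃ s₁ : ℝ, 0 < s₁ ∧ s₁ ≤ 1 ∧ s₁ * r < δ₁ ∧
      s₁ * L < δ₃ ∧ s₁ * L < δ₄ ∧ s₁ * L < δ₅ ∧ s₁ * L < δ₆ := by
    obtain ⟨m, hm0, h1, h3, h4, h5, h6⟩ : ∃ m : ℝ, 0 < m ∧ m ≤ δ₁ ∧ m ≤ δ₃ ∧ m ≤ δ₄ ∧ m ≤ δ₅ ∧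
        m ≤ δ₆ :=
      ⟨min δ₁ (min δ₃ (min δ₄ (min δ₅ δ₆))),
        lt_min hδ₁ (lt_min hδ₃ (lt_min hδ₄ (lt_min hδ₅ hδ₆))), by simp, by simp, by simp, by simp,
        by simp⟩
    have hrL : 0 < r + L + 1 := by positivity
    refine ⟨min 1 (m / (2 * (r + L + 1))), lt_min one_pos (by positivity), min_le_left _ _, ?_⟩
    have h7 : min 1 (m / (2 * (r + L + 1))) * (r + L + 1) ≤ m / 2 := by
      calc min 1 (m / (2 * (r + L + 1))) * (r + L + 1)
          ≤ m / (2 * (r + L + 1)) * (r + L + 1) :=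
            mul_le_mul_of_nonneg_right (min_le_right _ _) hrL.le
        _ = m / 2 := by field_simp
    have h8 : 0 < min 1 (m / (2 * (r + L + 1))) := lt_min one_pos (by positivity)
    have h9 : min 1 (m / (2 * (r + L + 1))) * r < m := by nlinarith
    have h10 : min 1 (m / (2 * (r + L + 1))) * L < m := by nlinarith
    exact ⟨by linarith, by linarith, by linarith, by linarith, by linarith⟩
  refine ⟨s₁, hs₁0, hs₁1, fun s hs0 hs1 => ?_⟩
  have hsI : s ∈ Ioc (0:ℝ) 1 := ⟨hs0, hs1.trans hs₁1⟩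
  have hsr : s * r < δ₁ := lt_of_le_of_lt (mul_le_mul_of_nonneg_right hs1 hr0.le) ha
  have hsL : s * L ≤ s₁ * L := mul_le_mul_of_nonneg_right hs1 hL0.le
  -- nondegeneracy of the linear path
  have hmain : ∀ u ∈ Icc (0:ℝ) 1, ∀ y, Nondeg (kap1 D η y + nins D.V D.ψ η s y +
      u • (kap1 D η y + lins η q B s y - (kap1 D η y + nins D.V D.ψ η s y))) := by
    intro u hu y
    by_cases hy : L * s < ‖y - q‖
    · rw [hsuppN s hsI hsr y hy, hsuppL s hsI y hy]
      have := linz_zero (G := EE n →L[ℝ] EE n →L[ℝ] ℝ) (kap1 D η y) u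
      rw [this]
      exact hκ₁.nondeg y
    · push Not at hy
      obtain ⟨z, hz⟩ : ∃ z, z = s⁻¹ • (y - q) := ⟨_, rfl⟩
      have hyz : y - q = s • z := by
        rw [hz, smul_smul, mul_inv_cancel₀ hs0.ne', one_smul]
      have hzL : ‖z‖ ≤ L := by
        rw [hz, norm_smul, norm_inv, Real.norm_of_nonneg hs0.le, inv_mul_le_iff₀ hs0]
        linarith
      have hyq : ‖y - q‖ ≤ s * L := by rw [mul_comm]; exact hy
      have hyV : y ∈ D.V := hV6 (by
        rw [mem_ball, dist_eq_norm]; linarith)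
      have hlins : lins η q B s y = G (B z, B) := by
        rw [hG]
        unfold lins
        have e : s⁻¹ • B (y - q) = B z := by rw [hz, map_smul]
        rw [e]
      have hnins : nins D.V D.ψ η s y = G (s⁻¹ • D.ψ y, fderiv ℝ D.ψ y) := by
        rw [hG, nins_mem hyV]
      refine hεn (kap1 D η q + G (B z, B)) ⟨z, by rwa [mem_closedBall_zero_iff], rfl⟩ _ ?_
      rw [hlins, hnins]
      refine linz_dist (G := EE n →L[ℝ] EE n →L[ℝ] ℝ) ?_ ?_ hu
      · refine hκc q rfl y ?_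
        rw [dist_eq_norm]; linarith
      · refine hG2 (B z, B) ⟨z, by rwa [mem_closedBall_zero_iff], rfl⟩ _ ?_
        rw [Prod.dist_eq, max_lt_iff]
        constructor
        · have h5 := @hψ5 (y - q) (by rw [dist_zero_right]; linarith)
          rw [add_sub_cancel, hψq, sub_zero] at h5
          have h6 : ‖s⁻¹ • D.ψ y - B z‖ ≤ δ₂ / 2 := by
            have e : s⁻¹ • D.ψ y - B z = s⁻¹ • (D.ψ y - B (y - q)) := by
              rw [smul_sub, hz, map_smul]
            rw [e, norm_smul, norm_inv, Real.norm_of_nonneg hs0.le, inv_mul_le_iff₀ hs0]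
            calc ‖D.ψ y - B (y - q)‖ ≤ δ₂ / (2 * L) * ‖y - q‖ := h5
              _ ≤ δ₂ / (2 * L) * (s * L) := mul_le_mul_of_nonneg_left hyq hc5.le
              _ = s * (δ₂ / 2) := by field_simp
          rw [dist_eq_norm]
          change ‖s⁻¹ • D.ψ y - B z‖ < δ₂
          linarith
        · have h5 := @hψ4 y (by rw [dist_eq_norm]; linarith)
          rw [← hB] at h5
          exact h5
  obtain ⟨R, hR⟩ : ∃ R : ℝ, R = ‖q‖ + L := ⟨_, rfl⟩
  have hout : ∀ y ∉ closedBall (0 : EE n) R, L * s < ‖y - q‖ := by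
    intro y hy
    rw [mem_closedBall_zero_iff, not_le] at hy
    have h1 : ‖y‖ ≤ ‖y - q‖ + ‖q‖ := by
      calc ‖y‖ = ‖(y - q) + q‖ := by rw [sub_add_cancel]
        _ ≤ ‖y - q‖ + ‖q‖ := norm_add_le _ _
    have h2 : L * s ≤ L * 1 := mul_le_mul_of_nonneg_left hsI.2 hL0.le
    linarith
  refine ⟨R, mov_step hn (symp_kap1_nins D hS hst hη hr hnd hsI) ?_ ?_ hmain⟩
  · refine (hκ₁.fo.add (fo_lins hη q B hs0.ne')).symp fun y => ?_
    have h := hmain 1 ⟨zero_le_one, le_rfl⟩ y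
    rw [one_smul] at h
    have e : kap1 D η y + nins D.V D.ψ η s y + (kap1 D η y + lins η q B s y -
        (kap1 D η y + nins D.V D.ψ η s y)) = kap1 D η y + lins η q B s y :=
      add_sub_cancel (kap1 D η y + nins D.V D.ψ η s y) (kap1 D η y + lins η q B s y)
    rw [e] at h
    exact h
  · intro y hy
    rw [hsuppN s hsI hsr y (hout y hy), hsuppL s hsI y (hout y hy)]

end Pool.Agent.H60.Sz
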