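import Pool.Agent.H60.Sy.Path
import Pool.Agent.H60.Sz.EmbK
import Pool.Agent.H60.Sz.Hlp

/-!
[H60 SY SHRINK] Shrinking the inserted core.

Statement to prove (keep it): `shrink`.

Proof. `mov_path` for `κ t y = kap1 D η y + nins D.V D.ψ η (1 - t (1 - s)) y`, `t ∈ [0,1]` (the scale runs from
`1` to `s` inside `(0,1]`); `symp_kap1_nins`, `continuousOn_nins`, and off the compact set
`φ '' S ⊆ closedBall 0 R` (`isCompact_image`, `IsCompact.isBounded`) both summands are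
constant in `t` (`nins_eq_zero`). At `t = 0` the form is `kap1 + nins 1 = om0`.
-/

set_option autoImplicit false
set_option linter.unusedSectionVars false

open scoped ContDiff Topology
open Set Metric

namespace Pool.Agent.H60.Sz

open Pool.Agent.H60.Sy

theorem shrink {n : ℕ} (hn : 2 ≤ n) {η : EE n → B2 (EE n)} {S : Set (EE n)}
    (D : EmbData n (fun x => om0 n + η x) S) (hS : IsCompact S)
    (hst : ∀ x ∈ S, ∀ t ∈ Icc (0:ℝ) 1, t • x ∈ S) (hη : Fo η)
    (hr : ∀ x ∉ S, η x = 0) (hnd : ∀ x, Nondeg (om0 n + η x)) {s : ℝ}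
    (hs : s ∈ Ioc (0:ℝ) 1) : ∃ R : ℝ,
      Mov (closedBall 0 R) (fun _ => om0 n) (fun y => kap1 D η y + nins D.V D.ψ η s y) := by
  obtain ⟨R, hR⟩ := (isCompact_image D hS).isBounded.subset_closedBall 0
  refine ⟨R, ?_⟩
  have hσm : ∀ t ∈ Icc (0:ℝ) 1, (1 - t * (1 - s)) ∈ Ioc (0:ℝ) 1 := by
    intro t ht
    have h1 : 0 ≤ t * (1 - s) := mul_nonneg ht.1 (by linarith [hs.2])
    have h2 : t * (1 - s) ≤ 1 * (1 - s) := mul_le_mul_of_nonneg_right ht.2 (by linarith [hs.2])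
    exact ⟨by linarith [hs.1], by linarith⟩
  have hcK : Continuous (kap1 D η) := (symp_kap1 D hS hst hη hr).sm.continuous
  have hc : ContinuousOn (fun q : ℝ × EE n => kap1 D η q.2 +
      nins D.V D.ψ η (1 - q.1 * (1 - s)) q.2) (Icc (0:ℝ) 1 ×ˢ univ) := by
    have h1 : ContinuousOn (fun q : ℝ × EE n => kap1 D η q.2) (Icc (0:ℝ) 1 ×ˢ univ) :=
      (hcK.comp continuous_snd).continuousOn
    have h2 : ContinuousOn (fun q : ℝ × EE n => nins D.V D.ψ η (1 - q.1 * (1 - s)) q.2)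
        (Icc (0:ℝ) 1 ×ˢ univ) := by
      have h3 : ContinuousOn (fun q : ℝ × EE n => ((1 - q.1 * (1 - s), q.2) : ℝ × EE n))
          (Icc (0:ℝ) 1 ×ˢ univ) := by
        refine Continuous.continuousOn ?_
        fun_prop
      exact (continuousOn_nins D hS hst hη hr).comp h3 (fun q hq => ⟨hσm q.1 hq.1, mem_univ _⟩)
    exact shrk_add (G := EE n →L[ℝ] EE n →L[ℝ] ℝ) h1 h2
  have h := mov_path hn (fun t y => kap1 D η y + nins D.V D.ψ η (1 - t * (1 - s)) y)
    (fun t ht => symp_kap1_nins D hS hst hη hr hnd (hσm t ht)) hc (c := 0) (r := R) (by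
      intro t ht y hy
      have hy' : y ∉ D.φ '' S := fun h => hy (hR h)
      show kap1 D η y + nins D.V D.ψ η (1 - t * (1 - s)) y =
        kap1 D η y + nins D.V D.ψ η (1 - 0 * (1 - s)) y
      rw [nins_eq_zero D hst hr (hσm t ht) hy', nins_eq_zero D hst hr (hσm 0 ⟨le_rfl, zero_le_one⟩) hy'])
  have e0 : (fun y => kap1 D η y + nins D.V D.ψ η (1 - 0 * (1 - s)) y) =
      fun _ : EE n => om0 n := by
    funext y
    rw [zero_mul, sub_zero]
    unfold kap1
    exact shrk_cancel (G := EE n →L[ℝ] EE n →L[ℝ] ℝ) (om0 n) (nins D.V D.ψ η 1 y)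
  have e1 : (fun y => kap1 D η y + nins D.V D.ψ η (1 - 1 * (1 - s)) y) =
      fun y => kap1 D η y + nins D.V D.ψ η s y := by
    funext y
    rw [one_mul, sub_sub_cancel]
  rw [← e0, ← e1]
  exact h

end Pool.Agent.H60.Sz
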