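import Pool.Agent.H60.Sy.Move
import Pool.Agent.H60.Sz.Hlp
import Pool.Agent.H60.Sy.Far
import Pool.Agent.H60.Sz.Shrk
import Pool.Agent.H60.Sz.Linz

set_option autoImplicit false
set_option linter.unusedSectionVars false

open scoped ContDiff Topology
open Set Metric

namespace Pool.Agent.H60.Sz

open Pool.Agent.H60.Sy

theorem inv0 {n : ℕ} (hn : 2 ≤ n) {η : EE n → B2 (EE n)} {S : Set (EE n)}
    (D : EmbData n (fun x => om0 n + η x) S) (hS : IsCompact S)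
    (hst : ∀ x ∈ S, ∀ t ∈ Icc (0:ℝ) 1, t • x ∈ S) (h0 : (0 : EE n) ∈ S) (hη : Fo η)
    (hr : ∀ x ∉ S, η x = 0) (hnd : ∀ x, Nondeg (om0 n + η x)) :
    ∃ (y₀ e : EE n) (B : EE n →L[ℝ] EE n), e ≠ 0 ∧ (∀ v w, om0 n (B v) (B w) = om0 n v w) ∧
      ∃ T₀ : ℝ, ∀ T, T₀ ≤ T → ∃ R : ℝ,
        Mov (closedBall 0 R) (fun _ => om0 n)
          (fun y => kap1 D η y + lins η (y₀ + T • e) B 1 y) := by
  obtain ⟨x, hxc, hmax⟩ : ∃ x ∈ S, ∀ x' ∈ S,
      co1 n ⟨0, by omega⟩ (D.φ x') ≤ co1 n ⟨0, by omega⟩ (D.φ x) := by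
    have hc : ContinuousOn (fun x => co1 n ⟨0, by omega⟩ (D.φ x)) S :=
      (co1 n ⟨0, by omega⟩).continuous.comp_continuousOn (D.hφ.continuousOn.mono D.hSU)
    obtain ⟨x, hx, hmax⟩ := hS.exists_isMaxOn ⟨0, h0⟩ hc
    exact ⟨x, hx, fun x' hx' => hmax hx'⟩
  obtain ⟨r, hr0, hSr⟩ : ∃ r : ℝ, 0 < r ∧ S ⊆ closedBall (0 : EE n) r := by
    obtain ⟨r, hr⟩ := hS.isBounded.subset_closedBall 0
    exact ⟨max r 1, lt_of_lt_of_le one_pos (le_max_right _ _),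
      hr.trans (closedBall_subset_closedBall (le_max_left _ _))⟩
  have hrr : ∀ x ∉ closedBall (0 : EE n) r, η x = 0 := fun x hx => hr x fun h => hx (hSr h)
  have hxU : x ∈ D.U := D.hSU hxc
  have hyV : D.φ x ∈ D.V := D.mφ hxU
  have hκ₁ : Symp (kap1 D η) := symp_kap1 D hS hst hη hr
  have hout : ∀ y, co1 n ⟨0, by omega⟩ (D.φ x) < co1 n ⟨0, by omega⟩ y → y ∉ D.φ '' S := by
    rintro y hy ⟨x', hx', rfl⟩
    exact absurd (hmax x' hx') (not_le.2 hy)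
  have hcl : D.φ x ∈ closure (D.φ '' S)ᶜ := by
    rw [mem_closure_iff_seq_limit]
    refine ⟨fun k : ℕ => D.φ x + (1 / ((k : ℝ) + 1)) • inv0_e n ⟨0, by omega⟩, fun k => ?_, ?_⟩
    · apply hout
      rw [map_add, map_smul, inv0_co, smul_eq_mul, mul_one]
      have : (0:ℝ) < 1 / ((k : ℝ) + 1) := by positivity
      linarith
    · have h1 : Filter.Tendsto (fun k : ℕ => (1 / ((k : ℝ) + 1))) Filter.atTop (𝓝 0) :=
        tendsto_one_div_add_atTop_nhds_zero_nat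
      have h2 := (h1.smul_const (inv0_e n ⟨0, by omega⟩)).const_add (D.φ x)
      rwa [zero_smul, add_zero] at h2
  have hsph : kap1 D η (D.φ x) = om0 n := kap1_closure D hS hst hη hr hcl
  have hBs : ∀ v w, om0 n (fderiv ℝ D.ψ (D.φ x) v) (fderiv ℝ D.ψ (D.φ x) w) = om0 n v w := by
    intro v w
    rw [← kap1_mem D hyV, hsph]
  have hxt : ∀ t ∈ Icc (0:ℝ) 1, t • x ∈ S := fun t ht => hst x hxc t ht
  -- (a)
  have hpc : ContinuousOn (fun t : ℝ => D.φ (t • x)) (Icc 0 1) := by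
    refine D.hφ.continuousOn.comp (Continuous.continuousOn (by fun_prop)) ?_
    intro t ht
    exact D.hSU (hxt t ht)
  have hψ' : ContinuousOn (fderiv ℝ D.ψ) D.V := D.hψ.continuousOn_fderiv_of_isOpen D.hV (by simp)
  have hBc : ContinuousOn (fun t : ℝ => fderiv ℝ D.ψ (D.φ (t • x))) (Icc 0 1) :=
    hψ'.comp hpc fun t ht => D.mφ (D.hSU (hxt t ht))
  obtain ⟨sa, ha0, ha1, ha⟩ := move hn hκ₁ hη hrr hnd (p := fun t : ℝ => D.φ (t • x))
    (B := fun t : ℝ => fderiv ℝ D.ψ (D.φ (t • x))) hpc hBc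
    (fun t ht v w => (kap1_mem D (D.mφ (D.hSU (hxt t ht))) v w).symm)
  obtain ⟨sl, hl0, hl1, hl⟩ := linz hn D hS hst h0 hη hr hnd
  -- (d)
  obtain ⟨C, hC0, hC⟩ := exists_inv_bound (A := om0 n) (k := fun _ => om0 n)
    (fun _ _ => om0_nondeg n) (B := fun _ => fderiv ℝ D.ψ (D.φ x)) continuousOn_const (fun _ _ => hBs)
  have hC' : ∀ v, ‖v‖ ≤ C * ‖fderiv ℝ D.ψ (D.φ x) v‖ := hC 0 ⟨le_rfl, zero_le_one⟩
  refine ⟨D.φ x, inv0_e n ⟨0, by omega⟩, fderiv ℝ D.ψ (D.φ x), inv0_ne n _, hBs, C * r + 1, ?_⟩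
  intro T hT
  have hCr : 0 < C * r := mul_pos hC0 hr0
  have hT0 : 0 < T := by linarith
  -- (c)
  have hpt : ∀ t : ℝ, co1 n ⟨0, by omega⟩ (D.φ x + (t * T) • inv0_e n ⟨0, by omega⟩)
      = co1 n ⟨0, by omega⟩ (D.φ x) + t * T := by
    intro t
    rw [map_add, map_smul, inv0_co, smul_eq_mul, mul_one]
  obtain ⟨sc, hc0, hc1, hc⟩ := move hn hκ₁ hη hrr hnd
    (p := fun t : ℝ => D.φ x + (t * T) • inv0_e n ⟨0, by omega⟩)
    (B := fun _ : ℝ => fderiv ℝ D.ψ (D.φ x)) (Continuous.continuousOn (by fun_prop)) continuousOn_const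
    (fun t ht v w => by
      rw [hBs]
      rcases eq_or_lt_of_le ht.1 with h | h
      · have e1 : D.φ x + (t * T) • inv0_e n ⟨0, by omega⟩ = D.φ x := by
          rw [← h, zero_mul, zero_smul, add_zero]
        show om0 n v w = kap1 D η (D.φ x + (t * T) • inv0_e n ⟨0, by omega⟩) v w
        rw [e1, hsph]
      · have e1 : kap1 D η (D.φ x + (t * T) • inv0_e n ⟨0, by omega⟩) = om0 n := by
          apply kap1_eq_om0 D hst hr
          apply hout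
          rw [hpt t]
          have := mul_pos h hT0
          linarith
        show om0 n v w = kap1 D η (D.φ x + (t * T) • inv0_e n ⟨0, by omega⟩) v w
        rw [e1])
  have hfar : ∀ y, fderiv ℝ D.ψ (D.φ x) (y - (D.φ x + T • inv0_e n ⟨0, by omega⟩))
      ∈ closedBall (0 : EE n) r → kap1 D η y = om0 n := by
    intro y hy
    apply kap1_eq_om0 D hst hr
    apply hout
    have h1 := hC' (y - (D.φ x + T • inv0_e n ⟨0, by omega⟩))
    have h2 := mem_closedBall_zero_iff.1 hy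
    have h3 : ‖y - (D.φ x + T • inv0_e n ⟨0, by omega⟩)‖ ≤ C * r :=
      h1.trans (mul_le_mul_of_nonneg_left h2 hC0.le)
    have h4 := inv0_le n ⟨0, by omega⟩ (y - (D.φ x + T • inv0_e n ⟨0, by omega⟩))
    have h5 := hpt 1
    rw [one_mul] at h5
    rw [map_sub, h5] at h4
    have h6 := (abs_le.1 (h4.trans h3)).1
    linarith
  obtain ⟨s, hs0, hsa, hsl, hsc⟩ : ∃ s : ℝ, 0 < s ∧ s ≤ sa ∧ s ≤ sl ∧ s ≤ sc :=
    ⟨min sa (min sl sc), lt_min ha0 (lt_min hl0 hc0), min_le_left _ _,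
      (min_le_right _ _).trans (min_le_left _ _), (min_le_right _ _).trans (min_le_right _ _)⟩
  obtain ⟨R1, m1⟩ := shrink hn D hS hst hη hr hnd (s := s) ⟨hs0, hsa.trans ha1⟩
  obtain ⟨R2, m2⟩ := hl s hs0 hsl
  obtain ⟨R3, m3⟩ := ha s hs0 hsa
  obtain ⟨R4, m4⟩ := hc s hs0 hsc
  obtain ⟨R5, m5⟩ := far hn hκ₁ hη hrr hnd (p := D.φ x + T • inv0_e n ⟨0, by omega⟩)
    (B := fderiv ℝ D.ψ (D.φ x)) hBs hfar hs0 (hsa.trans ha1)
  rw [zero_smul, one_smul] at m3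
  rw [zero_mul, zero_smul, add_zero, one_mul] at m4
  exact ⟨_, (((m1.trans_ball m2).trans_ball m3).trans_ball m4).trans_ball m5⟩

end Pool.Agent.H60.Sz
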